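import Mathlib
import Pool.Agent.W186.AI.Spec

set_option autoImplicit false

namespace Pool.Agent.W671.AI.FPL

open Complex Filter Topology Metric Set
open Pool.Agent.W186.AI

lemma it_bd (M : ℝ) (f : ℂ → ℂ) (w : ℂ) (hM : 1 ≤ M) (hf : Good M f) (hw : ‖w‖ * (2 * M) ≤ 1) (k : ℕ) :
    ‖it f w k‖ ≤ 1 / 2 := by
  have h0 := norm_nonneg w
  induction k with
  | zero => simp [it]
  | succ k ih =>
    have h1 : it f w k ∈ ball (0 : ℂ) 1 := by
      rw [mem_ball_zero_iff]; linarith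
    have h2 := hf.1 _ h1
    show ‖w * f (it f w k)‖ ≤ 1 / 2
    rw [norm_mul]
    nlinarith [mul_le_mul_of_nonneg_left h2 h0]

lemma contr (M : ℝ) (f : ℂ → ℂ) (w : ℂ) (hf : Good M f) (hw : ‖w‖ * (2 * M) ≤ 1)
    (t u : ℂ) (ht : ‖t‖ < 1) (hu : ‖u‖ < 1) : ‖w * f t - w * f u‖ ≤ 1 / 2 * ‖t - u‖ := by
  have h0 := norm_nonneg w
  have h1 := hf.2 t (by rw [mem_ball_zero_iff]; exact ht) u (by rw [mem_ball_zero_iff]; exact hu)
  rw [← mul_sub, norm_mul]
  have h2 := mul_le_mul_of_nonneg_left h1 h0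
  have h3 := norm_nonneg (t - u)
  have h4 : ‖w‖ * M ≤ 1 / 2 := by linarith
  calc ‖w‖ * ‖f t - f u‖ ≤ ‖w‖ * (M * ‖t - u‖) := h2
    _ = ‖w‖ * M * ‖t - u‖ := by ring
    _ ≤ 1 / 2 * ‖t - u‖ := mul_le_mul_of_nonneg_right h4 h3

lemma it_step (M : ℝ) (f : ℂ → ℂ) (w : ℂ) (hM : 1 ≤ M) (hf : Good M f) (hw : ‖w‖ * (2 * M) ≤ 1) (k : ℕ) :
    dist (it f w k) (it f w (k + 1)) ≤ 1 / 2 * (1 / 2) ^ k := by
  induction k with
  | zero =>
    have h := it_bd M f w hM hf hw 1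
    have e : it f w 0 = 0 := rfl
    rw [e, dist_zero_left]
    simpa using h
  | succ k ih =>
    have h1 := it_bd M f w hM hf hw k
    have h2 := it_bd M f w hM hf hw (k + 1)
    have h3 := contr M f w hf hw (it f w k) (it f w (k + 1)) (by linarith) (by linarith)
    rw [dist_eq_norm] at ih ⊢
    calc ‖it f w (k + 1) - it f w (k + 1 + 1)‖ = ‖w * f (it f w k) - w * f (it f w (k + 1))‖ := rfl
      _ ≤ 1 / 2 * ‖it f w k - it f w (k + 1)‖ := h3
      _ ≤ 1 / 2 * (1 / 2 * (1 / 2) ^ k) := by linarith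
      _ = 1 / 2 * (1 / 2) ^ (k + 1) := by ring

lemma it_tendsto (M : ℝ) (f : ℂ → ℂ) (w : ℂ) (hM : 1 ≤ M) (hf : Good M f) (hw : ‖w‖ * (2 * M) ≤ 1) :
    Tendsto (it f w) atTop (𝓝 (fp f w)) :=
  (cauchySeq_of_le_geometric (1 / 2) (1 / 2) (by norm_num) (it_step M f w hM hf hw)).tendsto_limUnder

lemma fp_dist (M : ℝ) (f : ℂ → ℂ) (w : ℂ) (hM : 1 ≤ M) (hf : Good M f) (hw : ‖w‖ * (2 * M) ≤ 1) (k : ℕ) :
    ‖it f w k - fp f w‖ ≤ (1 / 2) ^ k := by
  have h := dist_le_of_le_geometric_of_tendsto (1 / 2) (1 / 2) (by norm_num)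
    (it_step M f w hM hf hw) (it_tendsto M f w hM hf hw) k
  rw [dist_eq_norm] at h
  calc ‖it f w k - fp f w‖ ≤ 1 / 2 * (1 / 2) ^ k / (1 - 1 / 2) := h
    _ = (1 / 2) ^ k := by ring

lemma fp_bd (M : ℝ) (f : ℂ → ℂ) (w : ℂ) (hM : 1 ≤ M) (hf : Good M f) (hw : ‖w‖ * (2 * M) ≤ 1) :
    ‖fp f w‖ ≤ 1 / 2 :=
  le_of_tendsto (it_tendsto M f w hM hf hw).norm (Eventually.of_forall (it_bd M f w hM hf hw))

lemma fp_fix (M : ℝ) (f : ℂ → ℂ) (w : ℂ) (hM : 1 ≤ M) (hf : Good M f) (hw : ‖w‖ * (2 * M) ≤ 1) :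
    fp f w = w * f (fp f w) := by
  have h1 : Tendsto (fun k => it f w (k + 1)) atTop (𝓝 (fp f w)) :=
    (it_tendsto M f w hM hf hw).comp (tendsto_add_atTop_nat 1)
  have h2 : Tendsto (fun k => it f w (k + 1)) atTop (𝓝 (w * f (fp f w))) := by
    rw [tendsto_iff_norm_sub_tendsto_zero]
    have h3 : Tendsto (fun k : ℕ => 1 / 2 * (1 / 2 : ℝ) ^ k) atTop (𝓝 0) := by
      have h4 := (tendsto_pow_atTop_nhds_zero_of_lt_one (r := (1 / 2 : ℝ)) (by norm_num) (by norm_num)).const_mul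
        (1 / 2 : ℝ)
      simpa using h4
    refine squeeze_zero (fun _ => norm_nonneg _) (fun k => ?_) h3
    have h5 := it_bd M f w hM hf hw k
    have h6 := fp_bd M f w hM hf hw
    have h7 := contr M f w hf hw (it f w k) (fp f w) (by linarith) (by linarith)
    have h8 := fp_dist M f w hM hf hw k
    calc ‖it f w (k + 1) - w * f (fp f w)‖ = ‖w * f (it f w k) - w * f (fp f w)‖ := rfl
      _ ≤ 1 / 2 * ‖it f w k - fp f w‖ := h7
      _ ≤ 1 / 2 * (1 / 2) ^ k := by linarith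
  exact tendsto_nhds_unique h1 h2

theorem main : S_FPL := by
  intro M f w hM hf hw
  have hb := fp_bd M f w hM hf hw
  have hx := fp_fix M f w hM hf hw
  refine ⟨hb, hx, ?_, fun k => ⟨it_bd M f w hM hf hw k, fp_dist M f w hM hf hw k⟩, ?_⟩
  · intro t ht he
    have h1 := contr M f w hf hw t (fp f w) ht (by linarith)
    rw [← he, ← hx] at h1
    have h2 := norm_nonneg (t - fp f w)
    have h3 : ‖t - fp f w‖ = 0 := by linarith
    exact sub_eq_zero.1 (norm_eq_zero.1 h3)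
  · intro h ε hh hε
    have hb' := fp_bd M h w hM hh hw
    have hx' := fp_fix M h w hM hh hw
    have h0 := norm_nonneg w
    have h1 := contr M f w hf hw (fp f w) (fp h w) (by linarith) (by linarith)
    have h2 := hε (fp h w) (by rw [mem_ball_zero_iff]; linarith)
    have h3 : 0 ≤ ε := le_trans (norm_nonneg _) h2
    have h4 : ‖w‖ ≤ 1 / 2 := by nlinarith
    have h5 : ‖w * (f (fp h w) - h (fp h w))‖ ≤ 1 / 2 * ε := by
      rw [norm_mul]
      exact mul_le_mul h4 h2 (norm_nonneg _) (by norm_num)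
    have h6 : fp f w - fp h w = (w * f (fp f w) - w * f (fp h w)) + w * (f (fp h w) - h (fp h w)) := by
      conv_lhs => rw [hx, hx']
      ring
    have h7 : ‖fp f w - fp h w‖ ≤ 1 / 2 * ‖fp f w - fp h w‖ + 1 / 2 * ε := by
      conv_lhs => rw [h6]
      exact le_trans (norm_add_le _ _) (add_le_add h1 h5)
    linarith

end Pool.Agent.W671.AI.FPL
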